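import Pool.Agent.helper28.BQ.Final

/-!
# Balanced families of CM types and periods of theta forms on compact ball quotients

Let `E` be a CM field with maximal real subfield `F`. A finite family of CM types of `E` is *balanced*
if every embedding of `E` lies in exactly half of the types. For the product of the rank one motives
(algebraic Hecke characters) with these types this is the condition to be a Tate motive, that is, to
be generated by a Tate (Hodge) class. We prove: a family is balanced if and only if it can be reduced
to the empty family by removing pairs of complex conjugate types and by *exchanges*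
`{P_a, P_b} ↦ {P_c, P_d}`, `1_a + 1_b = 1_c + 1_d`, which are realised on a compact quotient `S` of the
ball in `ℂ²` by an arithmetic subgroup of `SU(2, 1)`: there are four theta 1-forms on `S` with the types
`P_a, …, P_d` and `∫_S ω_a ∧ ω_b ∧ conj (ω_c ∧ ω_d) ≠ 0`. The main point is that every exchange with a
common embedding `f₀ ∈ P_a ∩ P_b` is realised.

## The explicit forms

`[F : ℚ] ≥ 2`, `E = F(s)`, `s² = -κ`, `κ ∈ F` totally positive, `v₀` is a real place of `F`, `d ∈ F` is
positive at `v₀` and negative at all other real places, `V = E³` with the hermitian form
`diag (1, 1, -d)`, of signature `(2, 1)` at `v₀` and definite elsewhere, so anisotropic; `b` is the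
symmetric bilinear form `diag (1, 1, -d)` on `F³`. For `z` in the ball `|z₀|² + |z₁|² < v₀(d)` put
`N(z) = v₀(d) - z₀² - z₁²`, `s_x(z) = b(x, (z, 1)) / √N(z)`, `q_z(x) = b(x, x) + 2 s_x(z)²`. For `δ ∈ F`,
positive at `v₀`, and a finite Schwartz function `φ` on `F³`

  `ω_δ(φ)(z) = ∑_{x ∈ F³} φ(x) exp(-π ∑_{v ≠ v₀} y_v b_v(x, x) - π y_{v₀} q_z(x)) ds_x(z)`,
  `y_v = |v(δ)| √v(κ)`.

Every term is a closed holomorphic 1-form (a multiple of `exp(-2 π y s_x²) ds_x`). The sum is the theta
lift to the unitary group `U(V)` from the unitary group of the skew hermitian line `⟨δ s⟩`, whose signs
at the real places form the CM type `{f | Im f(δ s) > 0}` of `E`. (`δ` is determined by the numbers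
`|v(δ)|` and its sign `+` at `v₀`; `f₀` is the embedding above `v₀` with `Im f₀(s) > 0`; the group acts on
the ball through the conjugate embedding.)

Proof of the exchange: `δ_c = X² δ_a + Y² δ_b` and `δ_d = κ² δ_a δ_b δ_c` with `X, Y ∈ F`, `(X, Y)` close to
`(1, 0)` at `v₀` and at the real places where the signs of `a` and `c` agree and close to `(0, 1)` at the
others (weak approximation). The 2-forms `ω_a ∧ ω_b` and finite sums of forms `ω_c ∧ ω_d` are the values at
two points of one family of theta 2-forms on `S`, built with the same Schwartz function on
`V ⊗ (⟨δ_a⟩ ⊕ ⟨δ_b⟩)` and with the majorants of this plane at the real places; the whole family is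
invariant under one arithmetic group, it is continuous in the majorant, and the majorants of the two
frames are as close as we like. As the quotient is compact (reduction theory) and `∫ |ω_a ∧ ω_b|² > 0`
for suitable functions, the mixed period is not zero.

## Why this gives the conjectures of Tate and Hodge for CM abelian varieties (not formalised)

*All Hodge classes on complex abelian varieties with complex multiplication are algebraic, so (Pohlmann)
the Tate conjecture, in the form of the question, holds for all motives over number fields which are
cut out in products of CM abelian varieties; in particular for all products of Fermat varieties, of all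
degrees and dimensions.*

### Notation

Let `L` be a CM field, Galois over `ℚ`, `L ⊂ ℂ`, `G = Gal(L/ℚ) = Hom(L, ℂ)`, `c ∈ G` the complex
conjugation. For a CM type `Ψ ⊂ G` let `B_Ψ` be the abelian variety (up to isogeny) with complex
multiplication by `L` of type `Ψ`; `H¹(B_Ψ, ℂ)` is the sum of the lines `ℂ e_{Ψ,σ}`, `σ ∈ G`, on which `L`
acts through `σ`; `e_{Ψ,σ}` is holomorphic if and only if `σ ∈ Ψ`, and its complex conjugate is `e_{Ψ,cσ}` up to
a factor. Twisting the action of `L` by `ρ ∈ G` replaces `(Ψ, σ)` by `(Ψρ, σρ)`. Let `M_Ψ` be the motive
`h¹(B_Ψ)` considered as a motive of rank one over `L` (homological equivalence, coefficients in `L`).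
Over a number field containing `L` its Galois character is an algebraic Hecke character whose
infinity type is induced from `Φ = Ψ⁻¹ = {g | g⁻¹ ∈ Ψ}`.

### Reduction to balanced families

Every abelian variety with complex multiplication is a quotient of a product of varieties `B_Ψ` for one
`L`. The Hodge classes in `H^{2k}` of such a product are spanned over `ℂ` by monomials in the
`e_{Ψ,σ}`; by twisting we may write a monomial with all `σ = 1`, and it occurs if and only if for all
`g ∈ G` exactly `k` of the `2 k` types contain `g`: the family `Ψ_1, …, Ψ_{2k}` is balanced; equivalently the
family of the `Φ_i = Ψ_i⁻¹` is balanced. So it suffices to show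

(H) `M_{Ψ_1} ⊗_L … ⊗_L M_{Ψ_{2k}} ≅ L(-k)` by algebraic correspondences for all balanced families.

For a pair `{Ψ, cΨ}` this holds by the theorem of Lefschetz on divisor classes (`M_{cΨ}` is the dual of
`M_Ψ` up to a Tate twist, by the polarisation). It remains to see

(X) `M_{Ψ_a} ⊗ M_{Ψ_b} ≅ M_{Ψ_c} ⊗ M_{Ψ_d}` by algebraic correspondences, for all exchanges
`1_{Φ_a} + 1_{Φ_b} = 1_{Φ_c} + 1_{Φ_d}`, `Φ_a ∩ Φ_b` not empty;

then `result` for `E = L`, applied to the family of the `Φ_i`, gives (H). In (X) we may multiply all `Φ_i` from
the left by an element of `G` (this twists the four actions of `L` simultaneously), so we may assume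
that `1` is in all four `Φ_i`; it is the embedding `f₀` above.

### Theta 1-forms have complex multiplication

Let `S = Γ\Ball` with `Γ ≤ SU(V)(𝓞_F[s])` a torsion free congruence subgroup; it is a smooth projective
surface, a component of a unitary Shimura variety. (The four forms of an exchange are invariant under
a congruence subgroup, and passage to a common subgroup of finite index multiplies the period by a
positive number, so that the period is not zero on such an `S`.)

(A) *For `δ` of type `Φ = {f | Im f(δ s) > 0} ∋ 1` the closed holomorphic 1-forms `ω_δ(φ)` on `S` are in the
sum of the lines `f^*(ℂ e_{Ψ,1})`, where `f` runs through the morphisms from `S` to `B_Ψ`, `Ψ = Φ⁻¹`* (or the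
same for all complex conjugate types and varieties, according to the orientation of the ball, which is
immaterial below).

This is known: theta lifts of characters from `U(1)` to `U(2, 1)` and the first cohomology of compact ball
quotients (Kazhdan 1977, Kudla 1979, Rogawski 1990 and 1992, Gelbart and Rogawski 1991), CM type of
the Albanese variety (Oda 1981, Murty and Ramakrishnan 1992). We recall why the type is `Φ`. Let `η` be
the splitting character of the theta lift, `η | 𝔸_F^* = ω_{L/F}`. At a place where `V` is positive
definite, `U(3)` acts on the vacuum vector by `det^{(ε + k)/2}`, and at `v₀` the centre of `U(2, 1)` acts on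
the vector of degree one by the power `3 (ε + k)/2`, where `ε` is the sign of the skew hermitian line and
`k` the weight of `η` at this place. As the coefficients are trivial, `k = -ε` at ALL real places. The
Satake parameters of the lift at a split place `w` are `η_w q^{1/2}, η_w q^{-1/2}, η_w^{-2}`; by the
congruence relation and purity the Frobenius acts on the corresponding part of `H¹(S)` as `η_w q^{1/2}` (up
to the orientation): this part is the Galois representation of the algebraic Hecke character
`η |·|^{-1/2}` of infinity type `Φ`. Its conjugates under `τ ∈ Aut(ℂ)` occur in `H¹(S)` too, as the Hecke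
operators are rational, and are holomorphic if and only if `1 ∈ τΦ`, that is, `τ ∈ Φ⁻¹` on `L`; so the
corresponding rational Hodge structure is of rank one over `L` (times multiplicity spaces) and its
type is `Φ⁻¹`. (By restriction to totally geodesic curves `Y ⊂ S`, on which `ω_δ` becomes a finite sum of
theta 1-forms of the plane with constant coefficients, (A) can also be reduced to Shimura curves over `F`.)

### Proof of (X)

Put `B_i = B_{Ψ_i}` and `e_i = e_{Ψ_i,1}`, holomorphic as `1 ∈ Ψ_i`. By the exchange theorem and (A) there are
morphisms `f_i : S → B_i` such that, for `f = (f_a, f_b, f_c, f_d) : S → X = B_a × B_b × B_c × B_d`,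

  `∫_S f^*(e_a ∧ e_b ∧ conj e_c ∧ conj e_d) ≠ 0`

(expand the four forms). The class `f_*[S]` in `H_4(X, ℚ)` is algebraic. Let `U` be the Künneth component
`H_1(B_a) ⊗ H_1(B_b) ⊗ H_1(B_c) ⊗ H_1(B_d)` and let `W ⊂ U` be the rational subspace whose complexification is
the sum of the lines of weights `(g, g, cg, cg)`, `g ∈ G`, under `(L^*)⁴`. The weights of `U` have multiplicity
one and `(L^*)⁴` acts by isogenies; so the projection of `f_*[S]` to `W` is algebraic; it is not zero because
its component of weight `(1, 1, c, c)` is not zero. `W` is a vector space of dimension one over `L` (acting
on one factor), so all elements of `W` are algebraic. By the theorem of Lieberman (the inverse of the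
hard Lefschetz isomorphism is algebraic for abelian varieties) the corresponding subspace of `H⁴(X, ℚ)`
(again the weights `(g, g, cg, cg)`) consists of algebraic classes. Twisting the last two actions by `c`, it is
`M_{Ψ_a} ⊗ M_{Ψ_b} ⊗ M_{cΨ_c} ⊗ M_{cΨ_d}`. As `M_{cΨ}` is the dual of `M_Ψ` up to a twist, its elements are the
homomorphisms from `M_{Ψ_c} ⊗ M_{Ψ_d}` to `M_{Ψ_a} ⊗ M_{Ψ_b}` for the action of `L`, and the nonzero ones are
isomorphisms because the rank is one. This proves (X), so the Hodge conjecture for CM abelian varieties.

### Tate classes

For a CM abelian variety over a number field the Tate classes over a large finite extension are the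
`ℚ_ℓ`-combinations of the Hodge classes (Pohlmann 1968); so `ρ_p` is an isomorphism for all motives cut out
in products of CM abelian varieties, first over a finite Galois extension, and then by taking invariants
over the given field. Motives of Fermat varieties are of this kind (Shioda and Katsura, Deligne); see also
the hand-in AllFermat. (By Milne 1999 the Tate conjecture for all abelian varieties over finite fields
follows as well.)

### Relation to the literature

Known before: divisor classes; CM abelian varieties whose Hodge ring is generated by divisors; Fermat
varieties of degree `m ≤ 20`, of prime and prime power degree, and in small dimension (Ran, Shioda, Aoki); Weil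
classes on fourfolds (Schoen, van Geemen, Markman); Hodge classes on CM abelian varieties are
absolute (Deligne) and come from Weil classes (André). Cycles on ball quotients: Kudla and Millson,
Bergeron, Millson and Moeglin (Acta Math. 2016), Venkataramana; nonvanishing of products of Hecke
translates of holomorphic forms: Clozel (1992, 1993); relations between periods of CM types: Shimura.
We know of no place where the mixed periods `∫ ω_a ∧ ω_b ∧ conj (ω_c ∧ ω_d)` for different types, or
the consequences above, are proved.
-/

namespace Pool.Agent.Results.MP_3703a7_ag.CMTypes

open BQ NumberField

/-- `IsCMType E P`: `P` contains exactly one embedding of each conjugate pair. `Balanced E s`: every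
embedding lies in exactly half of the members of `s`. `Red E s`: `s` reduces to the empty family by
removing pairs of complementary CM types and by exchanges `{P_a, P_b} ↦ {P_c, P_d}` with
`1_a + 1_b = 1_c + 1_d` which are realised by a nonzero period of theta 1-forms of the types
`P_a, …, P_d` on a compact quotient of the ball in `ℂ²` (`Exchange`, `PeriodNZ`). -/
theorem result (E : Type) [Field E] [NumberField E] [IsCMField E] (s : Multiset (Set (E →+* ℂ)))
    (hs : ∀ P ∈ s, IsCMType E P) : Balanced E s ↔ Red E s :=
  final_FA E s hs

end Pool.Agent.Results.MP_3703a7_ag.CMTypes
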